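import Pool.Agent.Helper96.JZ.MSF

/-!
Row DOM (MP_7a8f48_an): in the case of a transfer function all types of a prime are dominated by
one type.
-/

set_option autoImplicit false

open Finset Filter MeasureTheory Topology
open scoped ComplexConjugate InnerProductSpace

namespace Pool.Agent.Helper51.JZ

open Pool.Agent.Helper16.AZ (T E Op mm fc Ind)
open Pool.Agent.Helper40.JZ
open Pool.Agent.Helper96.JZ (four_mul)

variable {r : ℕ} {θ : T r} {f : T r → U} {q : ℕ}

theorem lift_lin {a a' : ℤ} {D D' : T r → T r → U} (h : Lift θ f q a D)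
    (h' : Lift θ f q a' D') (i j : ℤ) :
    Lift θ f q (i * a + j * a') (fun s x => i • D s x + j • D' s x) := by
  refine ⟨fun s hs => ((h.1 s hs).const_smul i).add ((h'.1 s hs).const_smul j), ?_, ?_⟩
  · intro s hs s' hs'
    filter_upwards [h.2.1 s hs s' hs', h'.2.1 s hs s' hs'] with x h1 h2
    rw [h1, h2, smul_add, smul_add]
    abel
  · intro s hs
    filter_upwards [h.2.2 s hs, h'.2.2 s hs] with x h1 h2
    have e1 : D s (x + θ) = a • f (x + s) + D s x - a • f x := by
      rw [← h1]
      abel
    have e2 : D' s (x + θ) = a' • f (x + s) + D' s x - a' • f x := by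
      rw [← h2]
      abel
    rw [e1, e2, add_smul, add_smul, mul_smul, mul_smul, mul_smul, mul_smul, smul_sub, smul_add,
      smul_sub, smul_add]
    abel

theorem lift_smul {a : ℤ} {D : T r → T r → U} (h : Lift θ f q a D) (i : ℤ) :
    Lift θ f q (i * a) (fun s x => i • D s x) := by
  have h1 := lift_lin h h i 0
  have e : i * a + 0 * a = i * a := by ring
  rw [e] at h1
  have e2 : (fun (s x : T r) => i • D s x + (0 : ℤ) • D s x) = fun s x => i • D s x := by
    funext s x
    rw [zero_smul, add_zero]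
  rw [e2] at h1
  exact h1

theorem ae_shift {P : T r → Prop} (h : ∀ᵐ x ∂(mm r), P x) (s : T r) :
    ∀ᵐ x ∂(mm r), P (x + s) :=
  (measurePreserving_add_right (mm r) s).quasiMeasurePreserving.ae h

theorem lift_w {A : ℤ} {w : T r → U} (h : Qc θ f A w) :
    Lift θ f q A (fun s x => w x - w (x + s)) := by
  obtain ⟨-, hw, c, hc⟩ := h
  refine ⟨fun s _ => hw.sub (hw.comp (measurable_id.add_const s)), ?_, ?_⟩
  · intro s _ s' _
    refine Eventually.of_forall fun x => ?_
    show w x - w (x + (s + s')) = w (x + s') - w (x + s' + s) + (w x - w (x + s'))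
    have e : x + (s + s') = x + s' + s := by abel
    rw [e]
    abel
  · intro s _
    filter_upwards [hc, ae_shift hc s] with x h1 h2
    show w (x + θ) - w (x + θ + s) + A • f x = A • f (x + s) + (w x - w (x + s))
    have e : x + θ + s = x + s + θ := by abel
    have e1 : w (x + θ) = c + w x - A • f x := by
      rw [← h1]
      abel
    have e2 : w (x + s + θ) = c + w (x + s) - A • f (x + s) := by
      rw [← h2]
      abel
    rw [e, e1, e2]
    abel

theorem chi_smul (n : Fin r → ℤ) (s : T r) (j : ℕ) : j • chi n s = chi n (j • s) := by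
  unfold chi
  rw [smul_sum]
  refine sum_congr rfl fun i _ => ?_
  rw [Pi.smul_apply]
  exact smul_comm _ _ _

theorem chi_zero (n : Fin r → ℤ) : chi n (0 : T r) = 0 := by
  unfold chi
  simp

/-- an element killed by coprime numbers is zero -/
theorem cop_zero {x : U} {j : ℤ} (hj : j • x = 0) (hq : q • x = 0) (h : IsCoprime j (q : ℤ)) :
    x = 0 := by
  obtain ⟨a, b, hab⟩ := h
  have e : (a * j + b * (q : ℤ)) • x = 0 := by
    rw [add_smul, mul_smul, mul_smul, hj, natCast_zsmul, hq, smul_zero, smul_zero, add_zero]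
  rw [hab, one_smul] at e
  exact e

theorem pj_congr {D D' : T r → T r → U} {j j' : ℤ} (g : T r → ℂ)
    (h : ∀ᵐ x ∂(mm r), ∀ s ∈ tor r q, (fourier j (D s x) : ℂ) = fourier j' (D' s x)) :
    ms q D j g = ms q D' j' g := by
  unfold ms
  refine integral_congr_ae ?_
  filter_upwards [h] with x hx
  have : pj q D j g x = pj q D' j' g x := by
    rw [pj, pj]
    congr 1
    exact sum_congr rfl fun s hs => by rw [hx s hs]
  rw [this]

end Pool.Agent.Helper51.JZ

namespace Pool.Agent.Helper40.JZ

open Pool.Agent.Helper16.AZ (T E Op mm fc Ind)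
open Pool.Agent.Helper51.JZ
open Pool.Agent.Helper96.JZ (four_mul)

theorem st_DOM (hTOR : ST_TOR) (_hTCH : ST_TCH) (_hERG : ST_ERG) (hMSF : ST_MSF) (hFIB : ST_FIB)
    (hLCH : ST_LCH) : ST_DOM := by
  intro r θ f A w hθ _hf hQ q hq hAq
  haveI : NeZero q := ⟨hq.ne_zero⟩
  have hq1 : 1 ≤ q := hq.one_lt.le
  have hqz : (q : ℤ) ≠ 0 := by exact_mod_cast hq.ne_zero
  have hA0 : A ≠ 0 := hQ.1
  have hLw : Lift θ f q A (fun s x => w x - w (x + s)) := lift_w hQ
  have hT := (hTOR r q hq1).1
  -- the subgroup of the lifts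
  let S : AddSubgroup ℤ :=
    { carrier := {a | ∃ D : T r → T r → U, Lift θ f q a D}
      zero_mem' := by
        have h := lift_smul hLw 0
        rw [zero_mul] at h
        exact ⟨_, h⟩
      add_mem' := by
        rintro a a' ⟨D, h⟩ ⟨D', h'⟩
        have h1 := lift_lin h h' 1 1
        rw [one_mul, one_mul] at h1
        exact ⟨_, h1⟩
      neg_mem' := by
        rintro a ⟨D, h⟩
        have h1 := lift_smul h (-1)
        have e : -1 * a = -a := by ring
        rw [e] at h1
        exact ⟨_, h1⟩ }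
  obtain ⟨l, hl⟩ := Int.subgroup_cyclic S
  have mem : ∀ a, a ∈ S ↔ ∃ j : ℤ, j • l = a := fun a => by
    rw [hl, AddSubgroup.mem_closure_singleton]
  obtain ⟨k, hk⟩ : ∃ k : ℤ, k • l = A := (mem A).1 ⟨_, hLw⟩
  rw [smul_eq_mul] at hk
  have hl0 : l ≠ 0 := by
    rintro rfl
    exact hA0 (by rw [← hk, mul_zero])
  obtain ⟨D₀, hD₀⟩ : l ∈ S := (mem l).2 ⟨1, one_smul _ _⟩
  have hD₁ : Lift θ f q (q * l) (fun s x => (q : ℤ) • D₀ s x) := lift_smul hD₀ q
  -- coprime numbers
  have hcop : ∀ j : ℤ, j ∣ A → j ≠ 0 → IsCoprime j (q : ℤ) := by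
    intro j hj hj0
    rw [Int.isCoprime_iff_gcd_eq_one]
    have h1 : j.natAbs ≤ A.natAbs := Nat.le_of_dvd (Int.natAbs_pos.2 hA0)
      (Int.natAbs_dvd_natAbs.2 hj)
    have h2 : j.natAbs < q := lt_of_le_of_lt h1 hAq
    show Nat.gcd j.natAbs (q : ℤ).natAbs = 1
    rw [Int.natAbs_natCast]
    exact Nat.Coprime.symm ((Nat.Prime.coprime_iff_not_dvd hq).2 fun h3 =>
      absurd (Nat.le_of_dvd (Int.natAbs_pos.2 hj0) h3) (not_le.2 h2))
  refine ⟨some (q * l, fun s x => (q : ℤ) • D₀ s x), ⟨mul_ne_zero hqz hl0, hD₁⟩, ?_, ?_⟩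
  · rintro s hs
    have e : ((q : ℤ) * l, fun (s x : T r) => (q : ℤ) • D₀ s x) = s := Option.some.inj hs
    rw [← e]
    exact Dvd.intro _ rfl
  · intro t ht hc G hG
    have hF := (hFIB r).2 G hG
    -- summability
    have hsum : ∀ (D : T r → T r → U) (a : ℤ), a ≠ 0 → (∀ s ∈ tor r q, Measurable (D s)) →
        Summable fun j : ℤ => ms q D j (fib G (j * a)) := by
      intro D a ha hD
      have h1 : Summable fun j : ℤ => ∫ x, ‖fib G (j * a) x‖ ^ 2 ∂(mm r) :=
        hF.2.1.summable.comp_injective (i := fun j : ℤ => j * a)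
          fun j j' h => mul_right_cancel₀ ha h
      refine Summable.of_nonneg_of_le (fun j => ?_) (fun j => ?_) h1
      · exact (hMSF r q D j _ _ hq1 hD (hF.1 (j * a)) (hF.1 (j * a))).2.1
      · exact (hMSF r q D j _ _ hq1 hD (hF.1 (j * a)) (hF.1 (j * a))).2.2.1
    have hnn : ∀ j : ℤ, 0 ≤ ms q (fun s x => (q : ℤ) • D₀ s x) j (fib G (j * (q * l))) :=
      fun j => (hMSF r q _ j _ _ hq1 hD₁.1 (hF.1 (j * (q * l))) (hF.1 (j * (q * l)))).2.1
    have hs₁ := hsum _ _ (mul_ne_zero hqz hl0) hD₁.1
    rcases t with _ | ⟨a, D⟩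
    · show ms q (fun _ _ => 0) 0 (fib G 0) ≤
        ∑' j : ℤ, ms q (fun s x => (q : ℤ) • D₀ s x) j (fib G (j * (q * l)))
      have e : ms q (fun _ _ => 0) 0 (fib G 0) =
          ms q (fun s x => (q : ℤ) • D₀ s x) 0 (fib G (0 * (q * l))) := by
        rw [zero_mul]
        refine pj_congr _ (Eventually.of_forall fun x s _ => ?_)
        simp
      rw [e]
      exact hs₁.le_tsum 0 fun j _ => hnn j
    · obtain ⟨ha0, hD⟩ := ht
      obtain ⟨j, hjA, hja, hjD⟩ := hc
      change a ≠ 0 at ha0
      change j * a = A * q at hja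
      change Lift θ f q a D at hD
      have hj0 : j ≠ 0 := by
        rintro rfl
        rw [zero_mul] at hja
        exact mul_ne_zero hA0 hqz hja.symm
      have hcj := hcop j hjA hj0
      have hcl := hcop l ⟨k, by rw [← hk]; ring⟩ hl0
      -- a is a multiple of q l
      have hqa : (q : ℤ) ∣ a := by
        refine hcj.symm.dvd_of_dvd_mul_left ?_
        rw [hja]
        exact Dvd.intro_left _ rfl
      obtain ⟨m, hm⟩ := (mem a).1 ⟨D, hD⟩
      rw [smul_eq_mul] at hm
      have hqm : (q : ℤ) ∣ m := by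
        refine hcl.symm.dvd_of_dvd_mul_right ?_
        rw [hm]
        exact hqa
      obtain ⟨n, hn⟩ := hqm
      have han : a = n * (q * l) := by
        rw [← hm, hn]
        ring
      have hn0 : n ≠ 0 := by
        rintro rfl
        exact ha0 (by rw [han, zero_mul])
      -- D is n q D₀ up to a character
      have hD₂ : Lift θ f q a (fun s x => (n * q) • D₀ s x) := by
        have h := lift_smul hD₀ (n * q)
        have e : n * (q : ℤ) * l = a := by
          rw [han]
          ring
        rw [e] at h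
        exact h
      obtain ⟨ω, hω⟩ := hLCH r θ f q a _ _ hθ hD₂ hD
      have hjn : j * n * l = A := by
        have h1 : (j * n * l) * q = A * q := by
          rw [← hja, han]
          ring
        exact mul_right_cancel₀ hqz h1
      have hD₃ : Lift θ f q A (fun s x => (j * n) • D₀ s x) := by
        have h := lift_smul hD₀ (j * n)
        rw [hjn] at h
        exact h
      obtain ⟨ω', hω'⟩ := hLCH r θ f q A _ _ hθ hD₃ hLw
      have key : ∀ s ∈ tor r q, chi (vz ω) s = 0 := by
        intro s hs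
        have hqs : q • s = 0 := (hT s).1 hs
        have k1 : ∀ n : Fin r → ℤ, q • chi n s = 0 := fun n => by
          rw [chi_smul, hqs, chi_zero]
        refine cop_zero ?_ (k1 _) hcj
        -- at some point
        have hall : ∀ᵐ x ∂(mm r), D s x = chi (vz ω) s + (n * q) • D₀ s x ∧
            w x - w (x + s) = chi (vz ω') s + (j * n) • D₀ s x ∧
            j • D s x = q • (w x - w (x + s)) :=
          (hω s hs).and ((hω' s hs).and (hjD s hs))
        obtain ⟨x, h1, h2, h3⟩ := hall.exists
        rw [h1, h2, smul_add, smul_add, k1, zero_add] at h3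
        have e : j • ((n * (q : ℤ)) • D₀ s x) = q • ((j * n) • D₀ s x) := by
          rw [← natCast_zsmul, smul_smul, smul_smul]
          congr 1
          ring
        rw [e] at h3
        have h4 : j • chi (vz ω) s + q • ((j * n) • D₀ s x) = 0 + q • ((j * n) • D₀ s x) := by
          rw [h3, zero_add]
        exact add_right_cancel h4
      have hae : ∀ᵐ x ∂(mm r), ∀ s ∈ tor r q, D s x = (n * q) • D₀ s x := by
        rw [Filter.eventually_all_finset]
        intro s hs
        filter_upwards [hω s hs] with x hx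
        rw [hx, key s hs, zero_add]
      show ∑' i : ℤ, ms q D i (fib G (i * a)) ≤
        ∑' i : ℤ, ms q (fun s x => (q : ℤ) • D₀ s x) i (fib G (i * (q * l)))
      have e : ∀ i : ℤ, ms q D i (fib G (i * a)) =
          ms q (fun s x => (q : ℤ) • D₀ s x) (i * n) (fib G ((i * n) * (q * l))) := by
        intro i
        have e1 : i * a = (i * n) * (q * l) := by
          rw [han]
          ring
        rw [e1]
        refine pj_congr _ ?_
        filter_upwards [hae] with x hx s hs
        rw [hx s hs, four_mul, mul_smul]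
      rw [tsum_congr e]
      exact tsum_comp_le_tsum_of_inj hs₁ hnn (i := fun i : ℤ => i * n)
        fun i i' h => mul_right_cancel₀ hn0 h

end Pool.Agent.Helper40.JZ
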