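import Pool.Agent.Helper40.JZ.Stmts

/-!
Row RCY (MP_7a8f48_an): the group of the resonances is cyclic.
-/

set_option autoImplicit false

open Finset Filter MeasureTheory Topology
open scoped ComplexConjugate InnerProductSpace

namespace Pool.Agent.Helper40.JZ

open Pool.Agent.Helper16.AZ (T E Op mm fc Ind)

theorem Rs.lin51 {r : ℕ} {θ : T r} {f : T r → U} {p q : ℕ} {x₀ : T r} {a b a' b' : ℤ}
    {u u' : T r → U} (h : Rs θ f p q x₀ a b u) (h' : Rs θ f p q x₀ a' b' u') (j : ℤ) :
    Rs θ f p q x₀ (a - j * a') (b - j * b') (fun z => u z - j • u' z) := by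
  refine ⟨h.1.sub (h'.1.const_smul j), ?_⟩
  filter_upwards [h.2, h'.2] with z hz hz'
  have e1 : u (z + θ) = a • cs θ f p (x₀ + p • z) + u z - b • cs θ f q (x₀ + q • z) := by
    rw [← hz]
    abel
  have e2 : u' (z + θ) = a' • cs θ f p (x₀ + p • z) + u' z - b' • cs θ f q (x₀ + q • z) := by
    rw [← hz']
    abel
  rw [e1, e2, sub_smul, sub_smul, mul_smul, mul_smul, smul_sub, smul_add]
  abel

theorem st_RCY (hPUR : ST_PUR) : ST_RCY := by
  intro r θ f hθ hf hN p q x₀ hp hq hpq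
  -- one side only
  have R0 : ∀ (b : ℤ) (u : T r → U), Rs θ f p q x₀ 0 b u → b = 0 := by
    intro b u h
    refine hPUR r θ f hθ hf hN q x₀ b (fun z => -u z) hq.one_lt.le h.1.neg ?_
    filter_upwards [h.2] with z hz
    rw [zero_smul, zero_add] at hz
    rw [← hz]
    abel
  have R1 : ∀ (a : ℤ) (u : T r → U), Rs θ f p q x₀ a 0 u → a = 0 := by
    intro a u h
    refine hPUR r θ f hθ hf hN p x₀ a u hp.one_lt.le h.1 ?_
    filter_upwards [h.2] with z hz
    rw [zero_smul, add_zero] at hz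
    exact hz
  -- the subgroup of the first coordinates
  let S : AddSubgroup ℤ :=
    { carrier := {a | ∃ (b : ℤ) (u : T r → U), Rs θ f p q x₀ a b u}
      zero_mem' := ⟨0, fun _ => 0, measurable_const, Eventually.of_forall fun z => by simp⟩
      add_mem' := by
        rintro a a' ⟨b, u, h⟩ ⟨b', u', h'⟩
        have := h.lin51 h' (-1)
        have e : a - (-1) * a' = a + a' := by ring
        rw [e] at this
        exact ⟨b - (-1) * b', fun z => u z - (-1 : ℤ) • u' z, this⟩
      neg_mem' := by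
        rintro a ⟨b, u, h⟩
        have h0 : Rs θ f p q x₀ 0 0 (fun _ => 0) :=
          ⟨measurable_const, Eventually.of_forall fun z => by simp⟩
        have := h0.lin51 h 1
        have e : (0 : ℤ) - 1 * a = -a := by ring
        rw [e] at this
        exact ⟨0 - 1 * b, fun z => 0 - (1 : ℤ) • u z, this⟩ }
  obtain ⟨a₀, ha₀⟩ := Int.subgroup_cyclic S
  have mem : ∀ a, a ∈ S ↔ ∃ j : ℤ, j • a₀ = a := fun a => by
    rw [ha₀, AddSubgroup.mem_closure_singleton]
  by_cases h0 : a₀ = 0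
  · left
    intro a b u h
    have ha : a = 0 := by
      obtain ⟨j, hj⟩ := (mem a).1 ⟨b, u, h⟩
      rw [← hj, h0, smul_zero]
    subst ha
    exact ⟨rfl, R0 b u h⟩
  · right
    obtain ⟨b₀, u₀, hu₀⟩ : a₀ ∈ S := (mem a₀).2 ⟨1, one_smul _ _⟩
    refine ⟨a₀, b₀, u₀, h0, ?_, hu₀, ?_⟩
    · rintro rfl
      exact h0 (R1 a₀ u₀ hu₀)
    · intro a b u h
      obtain ⟨j, hj⟩ := (mem a).1 ⟨b, u, h⟩
      rw [smul_eq_mul] at hj
      refine ⟨j, hj.symm, ?_⟩
      have h1 := h.lin51 hu₀ j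
      have e : a - j * a₀ = 0 := by rw [← hj, sub_self]
      rw [e] at h1
      have := R0 _ _ h1
      linarith

end Pool.Agent.Helper40.JZ
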